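import Pool.Agent.TH926.BL.Sum

/-! All products `p q` with `P < p ≤ 2 P` and `q ≤ N`. -/

set_option autoImplicit false

namespace Pool.Agent.TH926.BL

open Finset Pool.Agent.H320R2.PD Pool.Agent.H499R2.ND Pool.Agent.H499R2.CO Pool.Agent.H376R2.MR
  Pool.Agent.W41.FU Pool.Agent.W41 Pool.Agent.W41.MU
open scoped Classical

/-- the primes in `(P, 2 P]` -/
noncomputable def DP (P : ℝ) : Finset ℕ := (range (⌊2 * P⌋₊ + 1)).filter (fun p => p.Prime ∧ P < p ∧ (p : ℝ) ≤ 2 * P)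

theorem mem_DP {P : ℝ} {p : ℕ} : p ∈ DP P ↔ p.Prime ∧ P < p ∧ (p : ℝ) ≤ 2 * P := by
  unfold DP
  rw [mem_filter, mem_range, Nat.lt_succ_iff]
  constructor
  · rintro ⟨_, h⟩; exact h
  · rintro ⟨h1, h2, h3⟩
    exact ⟨Nat.le_floor h3, h1, h2, h3⟩

theorem log_two_bd : (0.69 : ℝ) ≤ Real.log 2 ∧ Real.log 2 ≤ 0.7 :=
  ⟨by have := Real.log_two_gt_d9; linarith, by have := Real.log_two_lt_d9; linarith⟩

/-- the cells meeting `(P, 2 P]` -/
theorem cells_DP {H : ℕ} (hH : 10 ≤ H) : ∃ P0 : ℝ, 4 ≤ P0 ∧ ∀ P : ℝ, P0 ≤ P →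
    ∑ v ∈ Ico ⌊(H : ℝ) * Real.log P⌋₊ (⌊(H : ℝ) * Real.log (2 * P)⌋₊ + 1), mm H v ≤ 4 / Real.log P ∧
    1 / 10 * (P / Real.log P) ≤ (#(DP P) : ℝ) := by
  have hH1 : 1 ≤ H := by omega
  have hH0 : (0 : ℝ) < H := by exact_mod_cast hH1
  have hHr : (10 : ℝ) ≤ H := by exact_mod_cast hH
  obtain ⟨w0, hw0, hw⟩ := mm_lower hH1
  have tl := Real.tendsto_log_atTop
  obtain ⟨P0, hP0⟩ := Filter.eventually_atTop.1 ((Filter.eventually_ge_atTop (4 : ℝ)).and
    ((tl.eventually_ge_atTop ((w0 : ℝ) + 1)).and (tl.eventually_ge_atTop (2 : ℝ))))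
  refine ⟨max 4 P0, le_max_left _ _, fun P hP => ?_⟩
  obtain ⟨p1, p2, p3⟩ := hP0 P ((le_max_right _ _).trans hP)
  have hP0' : 0 < P := by linarith
  set L := Real.log P with hL
  have hL2 : Real.log (2 * P) = Real.log 2 + L := by rw [Real.log_mul (by norm_num) hP0'.ne']
  obtain ⟨l1, l2⟩ := log_two_bd
  set v0 := ⌊(H : ℝ) * L⌋₊ with hv0
  set v2 := ⌊(H : ℝ) * Real.log (2 * P)⌋₊ with hv2
  have hL0 : 0 < L := by linarith
  have hl20 : 0 ≤ Real.log (2 * P) := by rw [hL2]; linarith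
  have a1 : (v0 : ℝ) ≤ H * L := Nat.floor_le (by positivity)
  have a2 : (H : ℝ) * L < v0 + 1 := Nat.lt_floor_add_one _
  have a3 : (v2 : ℝ) ≤ H * (Real.log 2 + L) := by rw [← hL2]; exact Nat.floor_le (by positivity)
  have a4 : (H : ℝ) * (Real.log 2 + L) < v2 + 1 := by rw [← hL2]; exact Nat.lt_floor_add_one _
  have hHL : (w0 : ℝ) + 1 ≤ H * L := by nlinarith
  have b1 : w0 ≤ v0 := by
    apply Nat.le_floor; linarith
  have b2 : (H : ℝ) * L / 2 ≤ v0 := by nlinarith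
  have b3 : (v2 : ℝ) + 1 - v0 ≤ H := by nlinarith
  have b4 : 4 / 10 * (H : ℝ) ≤ (v2 : ℝ) - v0 - 1 := by nlinarith
  have b5 : v0 + 1 < v2 := by
    have : (v0 : ℝ) + 1 < v2 := by linarith
    exact_mod_cast this
  have hmmu : ∀ v ∈ Ico v0 (v2 + 1), mm H v ≤ 4 / (H * L) := by
    intro v hv
    rw [mem_Ico] at hv
    have h1 := (hw v (by omega)).2
    have h2 : (v0 : ℝ) ≤ v := by exact_mod_cast hv.1
    rw [le_div_iff₀ (by positivity)]
    have h3 := mm_nonneg H v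
    nlinarith
  constructor
  · refine (sum_le_sum hmmu).trans ?_
    rw [sum_const, Nat.card_Ico, nsmul_eq_mul]
    have h1 : ((v2 + 1 - v0 : ℕ) : ℝ) ≤ H := by
      rw [Nat.cast_sub (by omega)]; push_cast; exact b3
    calc ((v2 + 1 - v0 : ℕ) : ℝ) * (4 / (H * L)) ≤ H * (4 / (H * L)) :=
          mul_le_mul_of_nonneg_right h1 (by positivity)
      _ = 4 / L := by field_simp
  · have hint : ∑ v ∈ Ico (v0 + 1) v2, mm H v ≤ ∑ p ∈ DP P, 1 / (p : ℝ) := by
      set E : Finset ℕ := (DP P).filter (fun p => v0 + 1 ≤ ix H p ∧ ix H p < v2) with hE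
      have e2 : ∑ v ∈ Ico (v0 + 1) v2, mm H v = ∑ p ∈ E, 1 / (p : ℝ) := by
        obtain ⟨E', hE'⟩ : ∃ E' : Set ℕ, ∀ p, p ∈ E' ↔ p ∈ E := ⟨E, fun _ => mem_coe⟩
        rw [sum_cells (E := E) hH1 (v0 := v0 + 1) (v1 := v2) (fun p hp => ?_) E' hE']
        · apply sum_congr rfl
          intro v hv
          rw [mem_Ico] at hv
          unfold mm
          apply sum_congr _ (fun _ _ => rfl)
          ext p
          rw [mem_filter, hE', hE, mem_filter, mem_DP]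
          constructor
          · intro hp
            have h1 := mem_cell.1 hp
            have h2 := ((mem_cell_ix hH1).1 hp).2
            have hp0 : (0 : ℝ) < p := by exact_mod_cast h1.1.pos
            refine ⟨hp, ⟨h1.1, ?_, ?_⟩, by omega, by omega⟩
            · have h4 : ((v0 : ℝ) + 1) ≤ v := by exact_mod_cast hv.1
              have h5 : L < (v : ℝ) / H := by
                rw [lt_div_iff₀ hH0]; linarith
              have h6 := h5.trans_le h1.2.1
              rw [hL] at h6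
              exact (Real.log_lt_log_iff hP0' hp0).1 h6
            · have h4 : ((v : ℝ) + 1) ≤ v2 := by exact_mod_cast hv.2
              have h5 : ((v : ℝ) + 1) / H ≤ Real.log (2 * P) := by
                rw [div_le_iff₀ hH0, hL2]; linarith
              exact ((Real.log_le_log_iff hp0 (by positivity)).1 (h1.2.2.le.trans h5))
          · rintro ⟨hp, _⟩; exact hp
        · rw [hE, mem_filter, mem_DP] at hp
          exact ⟨hp.1.1, hp.2⟩
      rw [e2]
      exact sum_le_sum_of_subset_of_nonneg (filter_subset _ _) fun _ _ _ => by positivity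
    have hmml : ∀ v ∈ Ico (v0 + 1) v2, 1 / (4 * (H * L)) ≤ mm H v := by
      intro v hv
      rw [mem_Ico] at hv
      have h1 := (hw v (by omega)).1
      have h2 : (v : ℝ) ≤ v2 := by exact_mod_cast hv.2.le
      have h3 := mm_nonneg H v
      have h4 : (v : ℝ) ≤ 2 * (H * L) := by nlinarith
      rw [div_le_iff₀ (by positivity)]
      nlinarith
    have h1 : 1 / 10 * (1 / L) ≤ ∑ v ∈ Ico (v0 + 1) v2, mm H v := by
      refine le_trans ?_ (sum_le_sum hmml)
      rw [sum_const, Nat.card_Ico, nsmul_eq_mul]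
      have h1 : 4 / 10 * (H : ℝ) ≤ ((v2 - (v0 + 1) : ℕ) : ℝ) := by
        rw [Nat.cast_sub b5.le]; push_cast; linarith
      calc 1 / 10 * (1 / L) = 4 / 10 * H * (1 / (4 * (H * L))) := by field_simp
        _ ≤ _ := mul_le_mul_of_nonneg_right h1 (by positivity)
    have h2 : ∑ p ∈ DP P, 1 / (p : ℝ) ≤ #(DP P) * (1 / P) := by
      rw [← nsmul_eq_mul, ← sum_const]
      apply sum_le_sum
      intro p hp
      rw [mem_DP] at hp
      exact one_div_le_one_div_of_le hP0' hp.2.1.le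
    have h3 := (h1.trans hint).trans h2
    rw [show (#(DP P) : ℝ) * (1 / P) = #(DP P) / P by ring, le_div_iff₀ hP0'] at h3
    calc 1 / 10 * (P / L) = 1 / 10 * (1 / L) * P := by ring
      _ ≤ _ := h3

theorem box_P {s : ℤ} (hs : s = 1 ∨ s = -1) {ε : ℝ} (hε : 0 < ε) (hε1 : ε ≤ 1) :
    ∃ ϑ : ℝ, 0 < ϑ ∧ ϑ ≤ 1 / 64 ∧ ∀ θ : ℝ, 0 < θ → ∃ N0 : ℕ, 2 ≤ N0 ∧
    ∀ N : ℕ, N0 ≤ N → ∀ S : Set ℤ, Inv 1 S → ∀ δ : ℝ, HD s S δ →
    ∀ P : ℝ, (N : ℝ) ^ θ ≤ P → P ≤ (N : ℝ) ^ ϑ → ∀ As Bs : Set ℕ,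
    0 < #(DP P) ∧
    |∑ p ∈ (DP P).filter (fun p => p ∈ As), ∑ q ∈ QQ Bs N,
      bal s S δ ((p * q : ℕ) : ℤ)| ≤ ε * (#(DP P) * #(QQ Set.univ N)) := by
  obtain ⟨c, hc0, hc⟩ := Pool.Agent.W38.PR.cheb
  set c' : ℝ := min c 1 with hc'
  have hc'0 : 0 < c' := lt_min hc0 one_pos
  have hc'1 : c' ≤ 1 := min_le_right _ _
  have hc'c : c' ≤ c := min_le_left _ _
  set ε' : ℝ := c' * ε / 80 with hε'
  have hε'0 : 0 < ε' := by positivity
  have hε'1 : ε' ≤ 1 := by
    rw [hε', div_le_one (by norm_num)]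
    nlinarith
  obtain ⟨H, hH, ϑ0, h0, h01, hcell⟩ := cell_P hs hε'0 hε'1
  have hH1 : 1 ≤ H := by omega
  have hH0 : (0 : ℝ) < H := by exact_mod_cast hH1
  have hHr : (10 : ℝ) ≤ H := by exact_mod_cast hH
  obtain ⟨P0, hP04, hP0⟩ := cells_DP hH
  refine ⟨ϑ0 / 2, by positivity, by linarith, fun θ hθ => ?_⟩
  obtain ⟨Z1, hZ12, hZ1⟩ := hcell (θ / 4) (by positivity)
  have tl := Real.tendsto_log_atTop
  have ev : ∀ᶠ X : ℝ in Filter.atTop, (Z1 ≤ X ∧ 4 ≤ X) ∧ (P0 ≤ X ^ θ ∧ 1 ≤ θ * Real.log X) ∧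
      1 ≤ ϑ0 / 2 * Real.log X :=
    ((Filter.eventually_ge_atTop _).and (Filter.eventually_ge_atTop _)).and
      ((((tendsto_rpow_atTop hθ).eventually_ge_atTop _).and
        ((tl.const_mul_atTop hθ).eventually_ge_atTop _)).and
        ((tl.const_mul_atTop (show 0 < ϑ0 / 2 by positivity)).eventually_ge_atTop _))
  obtain ⟨N0, hN0⟩ := Filter.eventually_atTop.1 (tendsto_natCast_atTop_atTop (R := ℝ) |>.eventually ev)
  refine ⟨max 2 N0, le_max_left _ _, fun N hN S hS δ hδ P hPl hPu As Bs => ?_⟩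
  obtain ⟨⟨z1, z2⟩, ⟨z3, z4⟩, z5⟩ := hN0 N (le_trans (le_max_right _ _) hN)
  have hNp : (0 : ℝ) < N := by linarith
  have hN1 : (1 : ℝ) ≤ N := by linarith
  have hlogN : 0 < Real.log N := Real.log_pos (by linarith)
  have hPP0 : P0 ≤ P := z3.trans hPl
  have hP4 : 4 ≤ P := hP04.trans hPP0
  have hPp : 0 < P := by linarith
  obtain ⟨k1, k2⟩ := hP0 P hPP0
  set L := Real.log P with hL
  have hL1 : θ * Real.log N ≤ L := by
    rw [hL, ← Real.log_rpow hNp]; exact Real.log_le_log (by positivity) hPl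
  have hL2 : L ≤ ϑ0 / 2 * Real.log N := by
    rw [hL, ← Real.log_rpow hNp]; exact Real.log_le_log hPp hPu
  have hLp : 1 ≤ L := z4.trans hL1
  obtain ⟨l1, l2⟩ := log_two_bd
  have hL2P : Real.log (2 * P) = Real.log 2 + L := by rw [Real.log_mul (by norm_num) hPp.ne']
  set Z : ℝ := 2 * P * N with hZ
  have hZp : 0 < Z := by positivity
  have hNZ : (N : ℝ) ≤ Z := by rw [hZ]; nlinarith
  have hlogZ : Real.log Z = Real.log 2 + L + Real.log N := by
    rw [hZ, Real.log_mul (by positivity) hNp.ne', hL2P]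
  have hlogZ2 : Real.log Z ≤ 2 * Real.log N := by
    rw [hlogZ]
    have : ϑ0 / 2 * Real.log N ≤ 1 / 4 * Real.log N := mul_le_mul_of_nonneg_right (by linarith) hlogN.le
    have h2 : 1 ≤ ϑ0 / 2 * Real.log N := z5
    linarith
  have hlogZN : Real.log N ≤ Real.log Z := by rw [hlogZ]; linarith
  have hlogZ0 : 0 < Real.log Z := by linarith
  set v0 := ⌊(H : ℝ) * L⌋₊ with hv0
  set v1 := ⌊(H : ℝ) * Real.log (2 * P)⌋₊ + 1 with hv1
  have hsc := sum_cells hH1 (v0 := v0) (v1 := v1) (E := (DP P).filter (fun p => p ∈ As))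
    (fun p hp => by
      rw [mem_filter, mem_DP] at hp
      have hp0 : (0 : ℝ) < p := by exact_mod_cast hp.1.1.pos
      refine ⟨hp.1.1, ?_, ?_⟩
      · exact Nat.floor_le_floor (mul_le_mul_of_nonneg_left (Real.log_le_log hPp hp.1.2.1.le) hH0.le)
      · rw [hv1, Nat.lt_succ_iff]
        exact Nat.floor_le_floor (mul_le_mul_of_nonneg_left (Real.log_le_log hp0 hp.1.2.2) hH0.le))
    {p | p ∈ DP P ∧ p ∈ As} (fun p => by rw [mem_filter]; rfl)
    (fun p => ∑ q ∈ QQ Bs N, bal s S δ ((p * q : ℕ) : ℤ))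
  rw [hsc]
  obtain ⟨As', hAs'⟩ : ∃ As' : Set ℕ, As' = {p | p ∈ DP P ∧ p ∈ As} := ⟨_, rfl⟩
  have hAsm : ∀ p ∈ As', p ∈ DP P := by rw [hAs']; exact fun p hp => hp.1
  rw [← hAs']
  have hcard0 : (0 : ℝ) < #(DP P) := lt_of_lt_of_le (by positivity) k2
  refine ⟨by exact_mod_cast hcard0, ?_⟩
  refine (abs_sum_le_sum_abs _ _).trans ?_
  obtain ⟨Bs', hBs'⟩ : ∃ Bs' : Set ℕ, Bs' = {q | q ∈ Bs ∧ q ≤ N} := ⟨_, rfl⟩
  have hv : ∀ v ∈ Ico v0 v1, |∑ p ∈ (cell H v).filter (fun p => p ∈ As'),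
      ∑ q ∈ QQ Bs N, bal s S δ ((p * q : ℕ) : ℤ)| ≤ ε' * (mm H v * (Z / Real.log Z)) := by
    intro v hv
    rw [mem_Ico] at hv
    have h1 := hZ1 Z (z1.trans hNZ) S hS δ hδ v ?_ ?_ 1 (by norm_num) (by
        rw [Nat.cast_one]; exact Real.one_le_rpow (by linarith) h0.le) As' Bs'
    · have e : ∑ p ∈ (cell H v).filter (fun p => p ∈ As'), ∑ q ∈ QQ Bs N, bal s S δ ((p * q : ℕ) : ℤ) =
          ∑ p ∈ (cell H v).filter (fun p => p ∈ As'), ∑ q ∈ QQ Bs' ⌊Z / (p * (1 : ℕ))⌋₊,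
            bal s S δ ((p * (1 * q) : ℕ) : ℤ) := by
        apply sum_congr rfl
        intro p hp
        rw [mem_filter] at hp
        have hp2 := mem_DP.1 (hAsm p hp.2)
        have hp0 : (0 : ℝ) < p := by exact_mod_cast hp2.1.pos
        have e1 : QQ Bs N = QQ Bs' ⌊Z / (p * (1 : ℕ))⌋₊ := by
          ext q
          rw [mem_QQ, mem_QQ, hBs']
          simp only [Set.mem_ofPred_eq]
          constructor
          · rintro ⟨g1, g2, g3⟩
            refine ⟨?_, g2, g3, g1⟩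
            apply Nat.le_floor
            rw [Nat.cast_one, mul_one, le_div_iff₀ hp0, hZ]
            have g4 : (q : ℝ) ≤ N := by exact_mod_cast g1
            have := mul_le_mul g4 hp2.2.2 hp0.le hNp.le
            linarith
          · rintro ⟨_, g2, g3, g4⟩
            exact ⟨g4, g2, g3⟩
        rw [e1]
        apply sum_congr rfl
        intro q _
        rw [one_mul]
      rw [e]
      refine h1.trans (le_of_eq ?_)
      rw [Nat.cast_one, one_mul]
    · have h4 : (H : ℝ) * L < v0 + 1 := Nat.lt_floor_add_one _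
      have h5 : (v0 : ℝ) ≤ v := by exact_mod_cast hv.1
      rw [le_div_iff₀ hH0]
      have h6 : θ / 4 * Real.log Z ≤ L / 2 := by
        have := mul_le_mul_of_nonneg_left hlogZ2 (show 0 ≤ θ / 4 by positivity)
        linarith
      have h7 := mul_le_mul_of_nonneg_right h6 hH0.le
      nlinarith
    · have h4 : ((⌊(H : ℝ) * Real.log (2 * P)⌋₊ : ℕ) : ℝ) ≤ H * Real.log (2 * P) :=
        Nat.floor_le (by rw [hL2P]; positivity)
      have h5 : (v : ℝ) ≤ (⌊(H : ℝ) * Real.log (2 * P)⌋₊ : ℕ) := by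
        exact_mod_cast (by omega : v ≤ ⌊(H : ℝ) * Real.log (2 * P)⌋₊)
      rw [hL2P] at h4 h5
      rw [div_le_iff₀ hH0]
      have h6 : Real.log 2 + L + 1 / 10 ≤ ϑ0 * Real.log Z := by
        have := mul_le_mul_of_nonneg_left hlogZN h0.le
        linarith
      have h7 := mul_le_mul_of_nonneg_right h6 hH0.le
      nlinarith
  refine (sum_le_sum hv).trans ?_
  rw [← mul_sum, ← sum_mul]
  have hW : 0 ≤ Z / Real.log Z := by positivity
  have h3 := hc N (by linarith)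
  rw [Nat.floor_natCast, ← QQ_card] at h3
  calc ε' * ((∑ v ∈ Ico v0 v1, mm H v) * (Z / Real.log Z))
      ≤ ε' * ((4 / L) * (2 * P * N / Real.log N)) := by
        apply mul_le_mul_of_nonneg_left _ hε'0.le
        apply mul_le_mul k1 _ hW (by positivity)
        rw [hZ]
        exact div_le_div_of_nonneg_left (by positivity) hlogN hlogZN
    _ = ε * ((1 / 10 * (P / L)) * (c' * (N / Real.log N))) := by
        rw [hε']; ring
    _ ≤ ε * (#(DP P) * #(QQ Set.univ N)) := by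
        apply mul_le_mul_of_nonneg_left _ hε.le
        apply mul_le_mul k2 _ (by positivity) (by positivity)
        refine le_trans ?_ h3
        exact mul_le_mul_of_nonneg_right hc'c (by positivity)

end Pool.Agent.TH926.BL
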