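import Mathlib

/-! The counting lemma for patterns `p i * q j`. -/

set_option autoImplicit false

namespace Pool.Agent.TH926.BL

open Finset
open scoped Classical

/-- resampling of one coordinate -/
theorem resample {n : ℕ} (R : Fin n → Finset ℕ) (i : Fin n) (G : (Fin n → ℕ) → ℝ) :
    ∑ x ∈ Fintype.piFinset R, ∑ p ∈ R i, G (Function.update x i p) =
      #(R i) * ∑ x ∈ Fintype.piFinset R, G x := by
  rw [← sum_product' (f := fun x p => G (Function.update x i p))]
  have e : ∑ z ∈ Fintype.piFinset R ×ˢ R i, G (Function.update z.1 i z.2) =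
      ∑ z ∈ Fintype.piFinset R ×ˢ R i, G z.1 := by
    apply sum_nbij' (fun z => (Function.update z.1 i z.2, z.1 i)) (fun z => (Function.update z.1 i z.2, z.1 i))
    · intro z hz
      rw [mem_product, Fintype.mem_piFinset] at hz ⊢
      refine ⟨fun a => ?_, hz.1 i⟩
      simp only
      by_cases h : a = i
      · subst h; rw [Function.update_self]; exact hz.2
      · rw [Function.update_of_ne h]; exact hz.1 a
    · intro z hz
      rw [mem_product, Fintype.mem_piFinset] at hz ⊢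
      refine ⟨fun a => ?_, hz.1 i⟩
      simp only
      by_cases h : a = i
      · subst h; rw [Function.update_self]; exact hz.2
      · rw [Function.update_of_ne h]; exact hz.1 a
    · intro z _
      simp
    · intro z _
      simp
    · intro z _
      rfl
  rw [e, sum_product]
  simp only [sum_const, nsmul_eq_mul]
  rw [← mul_sum]

/-- the number of the tuples in the pattern `U` -/
noncomputable def CU {k l : ℕ} (R : Fin k → Finset ℕ) (Q : Fin l → Finset ℕ)
    (g : Fin k × Fin l → ℕ → ℕ → Prop) (U : Finset (Fin k × Fin l)) : ℝ :=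
  ∑ x ∈ Fintype.piFinset R, ∑ y ∈ Fintype.piFinset Q,
    if ∀ e ∈ U, g e (x e.1) (y e.2) then (1 : ℝ) else 0

/-- the product of all but one of the numbers of choices -/
theorem prod_bound {n : ℕ} (R : Fin n → Finset ℕ) {ρ : ℕ} (hR : ∀ i, #(R i) ≤ ρ) (i : Fin n) :
    ∃ a : ℝ, 0 ≤ a ∧ (∏ j, (#(R j) : ℝ)) = #(R i) * a ∧ ρ * a ≤ (ρ : ℝ) ^ n := by
  refine ⟨∏ j ∈ univ.erase i, (#(R j) : ℝ), by positivity, ?_, ?_⟩
  · rw [mul_prod_erase univ (fun j => (#(R j) : ℝ)) (mem_univ i)]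
  · have h1 : ∏ j ∈ univ.erase i, (#(R j) : ℝ) ≤ ∏ j ∈ univ.erase i, (ρ : ℝ) :=
      prod_le_prod (fun _ _ => Nat.cast_nonneg _) (fun j _ => by exact_mod_cast hR j)
    have h2 : (ρ : ℝ) * ∏ j ∈ univ.erase i, (ρ : ℝ) = (ρ : ℝ) ^ n := by
      rw [mul_prod_erase univ (fun _ => (ρ : ℝ)) (mem_univ i), prod_const, card_univ, Fintype.card_fin]
    rw [← h2]
    exact mul_le_mul_of_nonneg_left h1 (Nat.cast_nonneg _)

theorem step_U {k l : ℕ} {R : Fin k → Finset ℕ} {Q : Fin l → Finset ℕ} {ρ τ : ℕ} (hRρ : ∀ i, #(R i) ≤ ρ)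
    (hQτ : ∀ j, #(Q j) ≤ τ) {g : Fin k × Fin l → ℕ → ℕ → Prop}
    {U : Finset (Fin k × Fin l)} {e : Fin k × Fin l} (he : e ∉ U) {δ ε : ℝ} (hε : 0 ≤ ε)
    (h : ∀ A B : Set ℕ, |∑ p ∈ (R e.1).filter (fun p => p ∈ A), ∑ q ∈ (Q e.2).filter (fun q => q ∈ B),
      ((if g e p q then (1 : ℝ) else 0) - δ)| ≤ ε * (ρ * τ)) :
    |CU R Q g (insert e U) - δ * CU R Q g U| ≤ ε * (ρ ^ k * τ ^ l) := by
  -- the difference as one sum
  set F : (Fin k → ℕ) → (Fin l → ℕ) → ℝ := fun x y =>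
    ((if g e (x e.1) (y e.2) then (1 : ℝ) else 0) - δ) * (if ∀ e' ∈ U, g e' (x e'.1) (y e'.2) then 1 else 0) with hF
  have e1 : CU R Q g (insert e U) - δ * CU R Q g U =
      ∑ x ∈ Fintype.piFinset R, ∑ y ∈ Fintype.piFinset Q, F x y := by
    unfold CU
    rw [mul_sum, ← sum_sub_distrib]
    apply sum_congr rfl
    intro x _
    rw [mul_sum, ← sum_sub_distrib]
    apply sum_congr rfl
    intro y _
    rw [hF]
    simp only [forall_mem_insert]
    by_cases h1 : g e (x e.1) (y e.2) <;> by_cases h2 : ∀ e' ∈ U, g e' (x e'.1) (y e'.2)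
    · rw [if_pos ⟨h1, h2⟩, if_pos h2, if_pos h1]; ring
    · rw [if_neg (fun hh => h2 hh.2), if_neg h2]; ring
    · rw [if_neg (fun hh => h1 hh.1), if_pos h2, if_neg h1]; ring
    · rw [if_neg (fun hh => h2 hh.2), if_neg h2]; ring
  have e2 : #(R e.1) * (#(Q e.2) * ∑ x ∈ Fintype.piFinset R, ∑ y ∈ Fintype.piFinset Q, F x y) =
      ∑ x ∈ Fintype.piFinset R, ∑ y ∈ Fintype.piFinset Q,
        ∑ p ∈ R e.1, ∑ q ∈ Q e.2, F (Function.update x e.1 p) (Function.update y e.2 q) := by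
    rw [mul_sum (s := Fintype.piFinset R),
      ← resample R e.1 (fun x => #(Q e.2) * ∑ y ∈ Fintype.piFinset Q, F x y)]
    apply sum_congr rfl
    intro x _
    rw [sum_comm (s := Fintype.piFinset Q)]
    apply sum_congr rfl
    intro p _
    rw [← resample Q e.2 (fun y => F (Function.update x e.1 p) y)]
  have e3 : ∀ (x : Fin k → ℕ) (y : Fin l → ℕ),
      |∑ p ∈ R e.1, ∑ q ∈ Q e.2, F (Function.update x e.1 p) (Function.update y e.2 q)| ≤ ε * (ρ * τ) := by
    intro x y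
    obtain ⟨A, hA⟩ : ∃ A : Set ℕ, ∀ p, p ∈ A ↔ ∀ e' ∈ U, e'.1 = e.1 → g e' p (y e'.2) :=
      ⟨{p | ∀ e' ∈ U, e'.1 = e.1 → g e' p (y e'.2)}, fun _ => Iff.rfl⟩
    obtain ⟨B, hB⟩ : ∃ B : Set ℕ, ∀ q, q ∈ B ↔ ∀ e' ∈ U, e'.1 ≠ e.1 → e'.2 = e.2 → g e' (x e'.1) q :=
      ⟨{q | ∀ e' ∈ U, e'.1 ≠ e.1 → e'.2 = e.2 → g e' (x e'.1) q}, fun _ => Iff.rfl⟩
    have key : ∀ p q, (∀ e' ∈ U, g e' (Function.update x e.1 p e'.1) (Function.update y e.2 q e'.2)) ↔
        (p ∈ A ∧ q ∈ B) ∧ ∀ e' ∈ U, e'.1 ≠ e.1 → e'.2 ≠ e.2 → g e' (x e'.1) (y e'.2) := by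
      intro p q
      have up1 : ∀ a : Fin k, a ≠ e.1 → Function.update x e.1 p a = x a := fun a ha => Function.update_of_ne ha _ _
      have up2 : ∀ b : Fin l, b ≠ e.2 → Function.update y e.2 q b = y b := fun b hb => Function.update_of_ne hb _ _
      have us1 : Function.update x e.1 p e.1 = p := Function.update_self _ _ _
      have us2 : Function.update y e.2 q e.2 = q := Function.update_self _ _ _
      constructor
      · intro hh
        refine ⟨⟨(hA p).2 fun e' he' h1 => ?_, (hB q).2 fun e' he' h1 h2 => ?_⟩, fun e' he' h1 h2 => ?_⟩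
        · have h2 : e'.2 ≠ e.2 := by
            intro h2
            exact he (by rwa [← Prod.ext h1 h2])
          have := hh e' he'
          rwa [h1, us1, up2 _ h2] at this
        · have := hh e' he'
          rwa [up1 _ h1, h2, us2] at this
        · have := hh e' he'
          rwa [up1 _ h1, up2 _ h2] at this
      · rintro ⟨⟨hp, hq⟩, hc⟩ e' he'
        by_cases h1 : e'.1 = e.1
        · have h2 : e'.2 ≠ e.2 := by
            intro h2
            exact he (by rwa [← Prod.ext h1 h2])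
          rw [h1, us1, up2 _ h2]
          exact (hA p).1 hp e' he' h1
        · by_cases h2 : e'.2 = e.2
          · rw [up1 _ h1, h2, us2]
            exact (hB q).1 hq e' he' h1 h2
          · rw [up1 _ h1, up2 _ h2]
            exact hc e' he' h1 h2
    have us1 : ∀ p, Function.update x e.1 p e.1 = p := fun p => Function.update_self _ _ _
    have us2 : ∀ q, Function.update y e.2 q e.2 = q := fun q => Function.update_self _ _ _
    by_cases hc : ∀ e' ∈ U, e'.1 ≠ e.1 → e'.2 ≠ e.2 → g e' (x e'.1) (y e'.2)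
    · have e4 : ∑ p ∈ R e.1, ∑ q ∈ Q e.2, F (Function.update x e.1 p) (Function.update y e.2 q) =
          ∑ p ∈ (R e.1).filter (fun p => p ∈ A), ∑ q ∈ (Q e.2).filter (fun q => q ∈ B),
            ((if g e p q then (1 : ℝ) else 0) - δ) := by
        rw [sum_filter]
        apply sum_congr rfl
        intro p _
        by_cases hp : p ∈ A
        · rw [if_pos hp, sum_filter]
          apply sum_congr rfl
          intro q _
          simp only [hF]
          rw [us1, us2]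
          by_cases hq : q ∈ B
          · rw [if_pos hq, if_pos ((key p q).2 ⟨⟨hp, hq⟩, hc⟩), mul_one]
          · rw [if_neg hq, if_neg (fun hh => hq ((key p q).1 hh).1.2), mul_zero]
        · rw [if_neg hp]
          apply sum_eq_zero
          intro q _
          simp only [hF]
          rw [if_neg (fun hh => hp ((key p q).1 hh).1.1), mul_zero]
      rw [e4]
      exact h A B
    · have e4 : ∑ p ∈ R e.1, ∑ q ∈ Q e.2, F (Function.update x e.1 p) (Function.update y e.2 q) = 0 := by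
        apply sum_eq_zero
        intro p _
        apply sum_eq_zero
        intro q _
        simp only [hF]
        rw [if_neg (fun hh => hc ((key p q).1 hh).2), mul_zero]
      rw [e4, abs_zero]
      exact (abs_nonneg _).trans (h Set.univ Set.univ)
  have hk : (#(Fintype.piFinset R) : ℝ) = ∏ i, (#(R i) : ℝ) := by
    rw [Fintype.card_piFinset]
    push_cast
    rfl
  have hl : (#(Fintype.piFinset Q) : ℝ) = ∏ j, (#(Q j) : ℝ) := by
    rw [Fintype.card_piFinset]
    push_cast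
    rfl
  obtain ⟨a, ha0, ha1, ha2⟩ := prod_bound R hRρ e.1
  obtain ⟨b, hb0, hb1, hb2⟩ := prod_bound Q hQτ e.2
  rw [e1]
  have h5 : |#(R e.1) * (#(Q e.2) * ∑ x ∈ Fintype.piFinset R,
      ∑ y ∈ Fintype.piFinset Q, F x y)| ≤ (#(R e.1) * a) * ((#(Q e.2) * b) * (ε * (ρ * τ))) := by
    rw [e2]
    refine (abs_sum_le_sum_abs _ _).trans ?_
    have h6 : ∀ x ∈ Fintype.piFinset R, |∑ y ∈ Fintype.piFinset Q,
        ∑ p ∈ R e.1, ∑ q ∈ Q e.2, F (Function.update x e.1 p) (Function.update y e.2 q)| ≤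
        (#(Q e.2) * b) * (ε * (ρ * τ)) := by
      intro x _
      refine (abs_sum_le_sum_abs _ _).trans ((sum_le_sum fun y _ => e3 x y).trans ?_)
      rw [sum_const, nsmul_eq_mul, hl, hb1]
    refine (sum_le_sum h6).trans ?_
    rw [sum_const, nsmul_eq_mul, hk, ha1]
  have h8 : ε * (ρ * a * (τ * b)) ≤ ε * (ρ ^ k * τ ^ l) := by
    apply mul_le_mul_of_nonneg_left _ hε
    exact mul_le_mul ha2 hb2 (by positivity) (by positivity)
  rcases Nat.eq_zero_or_pos (#(R e.1)) with hR | hR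
  · have e4 : Fintype.piFinset R = ∅ := by
      rw [Fintype.piFinset_eq_empty]
      exact ⟨e.1, card_eq_zero.1 hR⟩
    rw [e4, sum_empty, abs_zero]
    positivity
  rcases Nat.eq_zero_or_pos (#(Q e.2)) with hQ | hQ
  · have e4 : Fintype.piFinset Q = ∅ := by
      rw [Fintype.piFinset_eq_empty]
      exact ⟨e.2, card_eq_zero.1 hQ⟩
    rw [e4]
    simp only [sum_empty, sum_const_zero, abs_zero]
    positivity
  have hR0 : (0 : ℝ) < #(R e.1) := by exact_mod_cast hR
  have hQ0 : (0 : ℝ) < #(Q e.2) := by exact_mod_cast hQ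
  rw [abs_mul, abs_mul, abs_of_pos hR0, abs_of_pos hQ0] at h5
  have h7 : (#(R e.1) : ℝ) * #(Q e.2) * |∑ x ∈ Fintype.piFinset R,
      ∑ y ∈ Fintype.piFinset Q, F x y| ≤ #(R e.1) * #(Q e.2) * (ε * (ρ * a * (τ * b))) := by
    calc _ = (#(R e.1) : ℝ) * (#(Q e.2) * |∑ x ∈ Fintype.piFinset R,
          ∑ y ∈ Fintype.piFinset Q, F x y|) := by ring
      _ ≤ _ := h5
      _ = _ := by ring
  exact (le_of_mul_le_mul_left h7 (by positivity)).trans h8

/-- the counting lemma -/
theorem count_U {k l : ℕ} {R : Fin k → Finset ℕ} {Q : Fin l → Finset ℕ} {ρ τ : ℕ} (hRρ : ∀ i, #(R i) ≤ ρ)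
    (hQτ : ∀ j, #(Q j) ≤ τ) {g : Fin k × Fin l → ℕ → ℕ → Prop}
    {δ : Fin k × Fin l → ℝ} (hδ0 : ∀ e, 0 ≤ δ e) (hδ1 : ∀ e, δ e ≤ 1) {ε : ℝ} (hε : 0 ≤ ε)
    (h : ∀ e : Fin k × Fin l, ∀ A B : Set ℕ, |∑ p ∈ (R e.1).filter (fun p => p ∈ A),
      ∑ q ∈ (Q e.2).filter (fun q => q ∈ B),
      ((if g e p q then (1 : ℝ) else 0) - δ e)| ≤ ε * (ρ * τ)) (U : Finset (Fin k × Fin l)) :
    |CU R Q g U - (∏ e ∈ U, δ e) * ((∏ i, (#(R i) : ℝ)) * ∏ j, (#(Q j) : ℝ))| ≤
      #U * ε * (ρ ^ k * τ ^ l) := by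
  induction U using Finset.induction_on with
  | empty =>
    have hk : (#(Fintype.piFinset R) : ℝ) = ∏ i, (#(R i) : ℝ) := by
      rw [Fintype.card_piFinset]
      push_cast
      rfl
    have hl : (#(Fintype.piFinset Q) : ℝ) = ∏ j, (#(Q j) : ℝ) := by
      rw [Fintype.card_piFinset]
      push_cast
      rfl
    have e : CU R Q g ∅ = (∏ i, (#(R i) : ℝ)) * ∏ j, (#(Q j) : ℝ) := by
      unfold CU
      simp only [notMem_empty, false_imp_iff, implies_true, if_true, sum_const, nsmul_eq_mul, mul_one]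
      rw [hk, hl]
    rw [e]
    simp
  | insert e U he ih =>
    have h1 := step_U hRρ hQτ he hε (h e)
    rw [prod_insert he, card_insert_of_notMem he]
    set W : ℝ := (∏ i, (#(R i) : ℝ)) * ∏ j, (#(Q j) : ℝ) with hW
    have h2 : |δ e * (CU R Q g U - (∏ e ∈ U, δ e) * W)| ≤ #U * ε * (ρ ^ k * τ ^ l) := by
      rw [abs_mul, abs_of_nonneg (hδ0 e)]
      exact (mul_le_of_le_one_left (abs_nonneg _) (hδ1 e)).trans ih
    have e3 : CU R Q g (insert e U) - δ e * (∏ e ∈ U, δ e) * W =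
        (CU R Q g (insert e U) - δ e * CU R Q g U) +
          δ e * (CU R Q g U - (∏ e ∈ U, δ e) * W) := by ring
    rw [e3]
    refine (abs_add_le _ _).trans ((add_le_add h1 h2).trans (le_of_eq ?_))
    push_cast
    ring

end Pool.Agent.TH926.BL
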