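import Pool.Agent.TH926.BL.Prm

/-! The products `p r q`, `p` in a cell. -/

set_option autoImplicit false

namespace Pool.Agent.TH926.BL

open Finset Pool.Agent.H320R2.PD Pool.Agent.H499R2.ND Pool.Agent.H499R2.CO Pool.Agent.H376R2.MR
  Pool.Agent.W41.FU Pool.Agent.W41 Pool.Agent.W41.MU
open scoped Classical

/-- the primes `q ≤ n` in `Bs` -/
noncomputable def QQ (Bs : Set ℕ) (n : ℕ) : Finset ℕ := (Icc 1 n).filter (fun q => q.Prime ∧ q ∈ Bs)

theorem mem_QQ {Bs : Set ℕ} {n q : ℕ} : q ∈ QQ Bs n ↔ q ≤ n ∧ q.Prime ∧ q ∈ Bs := by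
  unfold QQ
  rw [mem_filter, mem_Icc]
  constructor
  · rintro ⟨⟨_, h1⟩, h2, h3⟩; exact ⟨h1, h2, h3⟩
  · rintro ⟨h1, h2, h3⟩; exact ⟨⟨h2.one_lt.le, h1⟩, h2, h3⟩

theorem QQ_mono {Bs : Set ℕ} {n n' : ℕ} (h : n ≤ n') : QQ Bs n ⊆ QQ Bs n' := by
  intro q hq
  rw [mem_QQ] at hq ⊢
  exact ⟨hq.1.trans h, hq.2⟩

/-- primes in a window of real length `y` -/
theorem primes_window {y : ℝ} {a n : ℕ} {Bs : Set ℕ} (hy : 2 ≤ y) (h : (n : ℝ) ≤ a + y) :
    (#(QQ Bs n \ QQ Bs a) : ℝ) ≤ 40 * (y / Real.log y) := by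
  set N : ℕ := ⌈y⌉₊ with hN
  have hN1 : y ≤ N := Nat.le_ceil _
  have hN2 : (N : ℝ) ≤ 2 * y := by
    have := Nat.ceil_lt_add_one (show 0 ≤ y by linarith)
    linarith
  have hNn : 2 ≤ N := by exact_mod_cast hy.trans hN1
  have h1 := Pool.Agent.W38.PR.bt_unif (a := a + 1) (q := 1) (N := N) le_rfl hNn
  have h2 : #(QQ Bs n \ QQ Bs a) ≤ #((range N).filter fun k => (a + 1 + k * 1).Prime) := by
    apply card_le_card_of_injOn (fun q => q - (a + 1))
    · intro q hq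
      rw [mem_coe, mem_sdiff, mem_QQ, mem_QQ] at hq
      obtain ⟨⟨g1, g2, g3⟩, g4⟩ := hq
      have g5 : a < q := by
        by_contra hcon
        exact g4 ⟨by omega, g2, g3⟩
      have g6 : q < a + 1 + N := by
        have h3 : (q : ℝ) ≤ ((a + N : ℕ) : ℝ) := by
          push_cast
          have : (q : ℝ) ≤ n := by exact_mod_cast g1
          linarith
        have h4 : q ≤ a + N := by exact_mod_cast h3
        omega
      rw [mem_coe, mem_filter, mem_range]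
      refine ⟨by simp only; omega, ?_⟩
      simp only [mul_one]
      rw [show a + 1 + (q - (a + 1)) = q by omega]
      exact g2
    · intro q hq q' hq' hh
      rw [mem_coe, mem_sdiff, mem_QQ, mem_QQ] at hq hq'
      have g5 : a < q := by
        by_contra hcon
        exact hq.2 ⟨by omega, hq.1.2.1, hq.1.2.2⟩
      have g5' : a < q' := by
        by_contra hcon
        exact hq'.2 ⟨by omega, hq'.1.2.1, hq'.1.2.2⟩
      simp only at hh
      omega
  have hly : 0 < Real.log y := Real.log_pos (by linarith)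
  have h3 : (N : ℝ) / Real.log N ≤ 2 * y / Real.log y :=
    div_le_div₀ (by linarith) hN2 hly (Real.log_le_log (by linarith) hN1)
  refine le_trans (by exact_mod_cast h2) (h1.trans ?_)
  rw [Nat.totient_one]
  have e : 20 * (((1 : ℕ) : ℝ) / ((1 : ℕ) : ℝ)) * ((N : ℝ) / Real.log N) = 20 * ((N : ℝ) / Real.log N) := by
    norm_num
  rw [e]
  refine (mul_le_mul_of_nonneg_left h3 (by norm_num)).trans (le_of_eq ?_)
  ring

/-- the number of the primes of a cell -/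
theorem cell_card (H v : ℕ) : (#(cell H v) : ℝ) ≤ Real.exp (((v : ℝ) + 1) / H) * mm H v := by
  unfold mm
  rw [mul_sum]
  have h1 : (#(cell H v) : ℝ) = ∑ p ∈ cell H v, (1 : ℝ) := by rw [sum_const, nsmul_eq_mul, mul_one]
  rw [h1]
  apply sum_le_sum
  intro p hp
  have h2 := cell_lt hp
  have hp0 : (0 : ℝ) < p := by exact_mod_cast h2.1.pos
  rw [mul_one_div, le_div_iff₀ hp0, one_mul, ← Real.exp_log hp0]
  exact Real.exp_le_exp.2 h2.2.2.le

/-- one dyadic window -/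
theorem dyadic {f : ℤ → ℝ} (As Bs : Set ℕ) {H v r M a b : ℕ} {κ ε1 : ℝ}
    (hwin : ∀ q, a < q → q ≤ b → M ≤ r * q ∧ r * q < 2 * M) (hr : 1 ≤ r) (hκ : 0 ≤ κ) (hε1 : 0 ≤ ε1)
    (h : ∀ w : ℕ → ℝ, (∀ p ∈ cell H v, |w p| ≤ 1 / p) → (#(BB Bs r M) : ℝ) ≤ κ * M ∧
      ∑ m ∈ BB Bs r M, GS f w H v m ^ 2 ≤ ε1 ^ 2 * κ * (M * mm H v ^ 2)) :
    |∑ p ∈ (cell H v).filter (fun p => p ∈ As), ∑ q ∈ QQ Bs b \ QQ Bs a, f ((p * (r * q) : ℕ) : ℤ)| ≤
      Real.exp (((v : ℝ) + 1) / H) * (ε1 * κ * (M * mm H v)) := by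
  set P' := Real.exp (((v : ℝ) + 1) / H) with hP'
  have hP0 : 0 < P' := Real.exp_pos _
  set w : ℕ → ℝ := fun p => if p ∈ As then 1 / P' else 0 with hw
  have hwb : ∀ p ∈ cell H v, |w p| ≤ 1 / p := by
    intro p hp
    have h2 := cell_lt hp
    have hp0 : (0 : ℝ) < p := by exact_mod_cast h2.1.pos
    simp only [hw]
    split_ifs
    · rw [abs_of_pos (by positivity)]
      apply one_div_le_one_div_of_le hp0
      rw [← Real.exp_log hp0]
      exact Real.exp_le_exp.2 h2.2.2.le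
    · rw [abs_zero]; positivity
  obtain ⟨h1, h2⟩ := h w hwb
  have e1 : ∑ p ∈ (cell H v).filter (fun p => p ∈ As), ∑ q ∈ QQ Bs b \ QQ Bs a, f ((p * (r * q) : ℕ) : ℤ) =
      P' * ∑ q ∈ QQ Bs b \ QQ Bs a, GS f w H v (r * q) := by
    rw [sum_comm, mul_sum]
    apply sum_congr rfl
    intro q _
    unfold GS
    rw [mul_sum, sum_filter]
    apply sum_congr rfl
    intro p _
    simp only [hw]
    split_ifs
    · field_simp
    · ring
  have hinj : Set.InjOn (fun q => r * q) ((QQ Bs b \ QQ Bs a : Finset ℕ) : Set ℕ) := by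
    intro x _ y _ hxy
    exact Nat.eq_of_mul_eq_mul_left hr hxy
  have hsub : (QQ Bs b \ QQ Bs a).image (fun q => r * q) ⊆ BB Bs r M := by
    intro m hm
    rw [mem_image] at hm
    obtain ⟨q, hq, rfl⟩ := hm
    rw [mem_sdiff, mem_QQ, mem_QQ] at hq
    have g5 : a < q := by
      by_contra hcon
      exact hq.2 ⟨by omega, hq.1.2.1, hq.1.2.2⟩
    unfold BB
    rw [mem_filter, mem_Ico]
    exact ⟨hwin q g5 hq.1.1, q, hq.1.2.1, hq.1.2.2, rfl⟩
  have e2 : |∑ q ∈ QQ Bs b \ QQ Bs a, GS f w H v (r * q)| ≤ ∑ m ∈ BB Bs r M, |GS f w H v m| := by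
    refine (abs_sum_le_sum_abs _ _).trans ?_
    rw [← sum_image (f := fun m => |GS f w H v m|) hinj]
    exact sum_le_sum_of_subset_of_nonneg hsub fun _ _ _ => abs_nonneg _
  have hM0 : (0 : ℝ) ≤ M := Nat.cast_nonneg _
  have hmm := mm_nonneg H v
  have e3 : (∑ m ∈ BB Bs r M, |GS f w H v m|) ^ 2 ≤ (ε1 * κ * (M * mm H v)) ^ 2 := by
    refine sq_sum_le_card_mul_sum_sq.trans ?_
    simp only [sq_abs]
    calc (#(BB Bs r M) : ℝ) * ∑ m ∈ BB Bs r M, GS f w H v m ^ 2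
        ≤ (κ * M) * (ε1 ^ 2 * κ * (M * mm H v ^ 2)) :=
          mul_le_mul h1 h2 (sum_nonneg fun _ _ => sq_nonneg _) (by positivity)
      _ = _ := by ring
  have e4 := abs_le_of_sq_le_sq' e3 (by positivity)
  rw [e1, abs_mul, abs_of_pos hP0]
  exact mul_le_mul_of_nonneg_left (e2.trans e4.2) hP0.le

end Pool.Agent.TH926.BL
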