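import Pool.Agent.TH926.BL.Ms

/-! Mean squares of the sums over a cell along the multiples `r q` of the primes. -/

set_option autoImplicit false

namespace Pool.Agent.TH926.BL

open Finset Pool.Agent.H320R2.PD Pool.Agent.H499R2.ND Pool.Agent.H499R2.CO Pool.Agent.H376R2.MR
  Pool.Agent.W41.FU Pool.Agent.W41 Pool.Agent.W41.MU
open scoped Classical

/-- the `r q` in a window, with `q` prime, `q ∈ Bs` -/
noncomputable def BB (Bs : Set ℕ) (r M : ℕ) : Finset ℕ :=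
  (Ico M (2 * M)).filter (fun m => ∃ q : ℕ, q.Prime ∧ q ∈ Bs ∧ m = r * q)

/-- primes in a short interval -/
theorem primes_short {X c : ℝ} (hX : 1 < X) (hc : 0 < c) {r L a : ℕ} (hr : 1 ≤ r)
    (hr2 : (r : ℝ) ≤ X ^ (c / 2)) (hX2 : 2 ≤ X ^ (c / 2)) (hL : X ^ c ≤ L) (T : Finset ℕ)
    (hT : ∀ q ∈ T, q.Prime ∧ a ≤ r * q ∧ r * q < a + L) :
    (#T : ℝ) ≤ 80 / c * (L / (r * Real.log X)) := by
  have hX0 : 0 < X := by linarith
  have hlog : 0 < Real.log X := Real.log_pos hX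
  have hr0 : (0 : ℝ) < r := by exact_mod_cast hr
  have hLr : X ^ (c / 2) ≤ L / r := by
    rw [le_div_iff₀ hr0]
    calc X ^ (c / 2) * r ≤ X ^ (c / 2) * X ^ (c / 2) := mul_le_mul_of_nonneg_left hr2 (by positivity)
      _ = X ^ c := by rw [← Real.rpow_add hX0]; congr 1; ring
      _ ≤ L := hL
  set N : ℕ := L / r + 1 with hN
  have hN1 : (L : ℝ) / r ≤ N := by
    rw [div_le_iff₀ hr0]
    have h1 : L < (L / r + 1) * r := by
      have := Nat.lt_div_mul_add (a := L) (show 0 < r by omega)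
      rw [Nat.add_mul, one_mul]; omega
    have h2 : L ≤ N * r := by rw [hN]; omega
    exact_mod_cast h2
  have hN2 : (N : ℝ) ≤ 2 * (L / r) := by
    have h1 : ((L / r : ℕ) : ℝ) ≤ L / r := Nat.cast_div_le
    rw [hN]; push_cast
    linarith
  have hNn : 2 ≤ N := by
    have : (2 : ℝ) ≤ N := hX2.trans (hLr.trans hN1)
    exact_mod_cast this
  have hlogN : c / 2 * Real.log X ≤ Real.log N := by
    rw [← Real.log_rpow hX0]
    exact Real.log_le_log (by positivity) (hLr.trans hN1)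
  have h1 := Pool.Agent.W38.PR.bt_unif (a := (a + r - 1) / r) (q := 1) (N := N) le_rfl hNn
  have h2 : #T ≤ #((range N).filter fun k => ((a + r - 1) / r + k * 1).Prime) := by
    apply card_le_card_of_injOn (fun q => q - (a + r - 1) / r)
    · intro q hq
      obtain ⟨g1, g2, g3⟩ := hT q hq
      have h3 : (a + r - 1) / r ≤ q := by
        rw [Nat.div_le_iff_le_mul_add_pred hr]
        omega
      have h4 : q < (a + r - 1) / r + N := by
        have h5 : a ≤ (a + r - 1) / r * r := by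
          have := Nat.lt_div_mul_add (a := a + r - 1) (show 0 < r by omega)
          omega
        have h6 : L < N * r := by
          have := Nat.lt_div_mul_add (a := L) (show 0 < r by omega)
          rw [hN, Nat.add_mul, one_mul]; omega
        have h7 : q * r < ((a + r - 1) / r + N) * r := by
          rw [Nat.add_mul, mul_comm q r]
          omega
        exact Nat.lt_of_mul_lt_mul_right h7
      rw [mem_coe, mem_filter, mem_range]
      refine ⟨by simp only; omega, ?_⟩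
      simp only [mul_one]
      rw [show (a + r - 1) / r + (q - (a + r - 1) / r) = q by omega]
      exact g1
    · intro q hq q' hq' h
      have e1 : (a + r - 1) / r ≤ q := by
        rw [Nat.div_le_iff_le_mul_add_pred hr]
        have := (hT q hq).2.1
        omega
      have e2 : (a + r - 1) / r ≤ q' := by
        rw [Nat.div_le_iff_le_mul_add_pred hr]
        have := (hT q' hq').2.1
        omega
      simp only at h
      omega
  have h3 : (N : ℝ) / Real.log N ≤ 2 * (L / r) / (c / 2 * Real.log X) :=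
    div_le_div₀ (by positivity) hN2 (by positivity) hlogN
  have h4 : (#T : ℝ) ≤ 20 * (N / Real.log N) := by
    refine le_trans (by exact_mod_cast h2) (h1.trans (le_of_eq ?_))
    rw [Nat.totient_one]; norm_num
  refine h4.trans ((mul_le_mul_of_nonneg_left h3 (by norm_num)).trans (le_of_eq ?_))
  field_simp
  ring

/-- the multiples of the primes in the classes modulo `2 ^ k` -/
theorem primes_cls {Z : ℝ} (hZ : 2 ≤ Z) {k r : ℕ} (hk1 : 1 ≤ k) (hk : (2 : ℝ) ^ k ≤ Z ^ (1 / 2 : ℝ))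
    (hr : r % 2 = 1) (P : ℤ → Prop) (hP : ∀ x m : ℤ, P (x + m * 2 ^ k) ↔ P x) (B : Finset ℕ)
    (hB : ∀ m ∈ B, ∃ q : ℕ, q.Prime ∧ m = r * q ∧ (q : ℝ) ≤ Z) :
    (#{m ∈ B | P ((m : ℕ) : ℤ)} : ℝ) ≤
      160 * (Z / Real.log Z) / 2 ^ k * #{a ∈ range (2 ^ k) | P ((a : ℕ) : ℤ)} := by
  have h1 := Pool.Agent.W38.PR.prime_classes hZ hk1 hk (fun x => P (r * x)) (fun x m => by
    have e : (r : ℤ) * (x + m * 2 ^ k) = r * x + (r * m) * 2 ^ k := by ring
    rw [e]; exact hP _ _)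
  have hr' : (r : ℤ) % 2 = 1 := by omega
  have h2 := Pool.Agent.H499R2.CO.sum_affine k (fun x : ℤ => if P x then (1 : ℝ) else 0)
    (fun x m => by simp only [hP x m]) hr' 0
  have h3 : (#{a ∈ range (2 ^ k) | P ((r : ℤ) * ((a : ℕ) : ℤ))} : ℝ) = #{a ∈ range (2 ^ k) | P ((a : ℕ) : ℤ)} := by
    rw [card_filter, card_filter]
    push_cast
    simp only [add_zero] at h2
    exact h2
  rw [h3] at h1
  refine le_trans ?_ h1
  have h4 : #{m ∈ B | P ((m : ℕ) : ℤ)} ≤ #{p ∈ Icc 1 ⌊Z⌋₊ | p.Prime ∧ P ((r : ℤ) * ((p : ℕ) : ℤ))} := by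
    have hr0 : 0 < r := by omega
    apply card_le_card_of_injOn (fun m => m / r)
    · intro m hm
      rw [mem_coe, mem_filter] at hm
      obtain ⟨q, g1, g2, g3⟩ := hB m hm.1
      rw [mem_coe, mem_filter, mem_Icc]
      have e : m / r = q := by rw [g2, Nat.mul_div_cancel_left _ hr0]
      simp only [e]
      refine ⟨⟨g1.one_lt.le, Nat.le_floor g3⟩, g1, ?_⟩
      have h5 := hm.2
      rw [g2] at h5
      push_cast at h5
      exact h5
    · intro m hm m' hm' h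
      rw [mem_coe, mem_filter] at hm hm'
      obtain ⟨q, -, g2, -⟩ := hB m hm.1
      obtain ⟨q', -, g2', -⟩ := hB m' hm'.1
      simp only at h
      rw [g2, g2', Nat.mul_div_cancel_left _ hr0, Nat.mul_div_cancel_left _ hr0] at h
      rw [g2, g2', h]
  exact_mod_cast h4

/-- MEAN SQUARE over the multiples of the primes. -/
theorem ms_P {s : ℤ} (hs : s = 1 ∨ s = -1) {ε : ℝ} (hε : 0 < ε) (hε1 : ε ≤ 1) {H : ℕ} (hH : 10 ≤ H) :
    ∃ ϑ : ℝ, 0 < ϑ ∧ ϑ ≤ 1 / 64 ∧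
    ∀ θ1 : ℝ, 0 < θ1 → ∃ X0 : ℝ, 2 ≤ X0 ∧
    ∀ X : ℝ, X0 ≤ X → ∀ S : Set ℤ, Inv 1 S → ∀ δ : ℝ, HD s S δ →
    ∀ v M : ℕ, θ1 * Real.log X ≤ (v : ℝ) / H → ((v : ℝ) + 1) / H ≤ ϑ * Real.log X →
    X ≤ 4 * (M * Real.exp ((v : ℝ) / H)) → M * Real.exp ((v : ℝ) / H) ≤ 4 * X →
    ∀ w : ℕ → ℝ, (∀ p ∈ cell H v, |w p| ≤ 1 / p) →
    ∀ r : ℕ, r % 2 = 1 → (r : ℝ) ≤ X ^ ϑ → ∀ Bs : Set ℕ,
      (#(BB Bs r M) : ℝ) ≤ 640 / (r * Real.log X) * M ∧
      ∑ m ∈ BB Bs r M, GS (bal s S δ) w H v m ^ 2 ≤ ε * (640 / (r * Real.log X)) * (M * mm H v ^ 2) := by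
  obtain ⟨c, hc0, hc1, h⟩ := ms_B hs hε hε1 hH
  have hK1 : 1 ≤ 1 / (8 * c) := by
    rw [le_div_iff₀ (by positivity)]; linarith
  obtain ⟨ϑ', h0, h0c, h1⟩ := h (1 / (8 * c)) hK1
  set ϑ : ℝ := min ϑ' (c / 2) with hϑ
  have hϑ0 : 0 < ϑ := lt_min h0 (by positivity)
  have hϑ1 : ϑ ≤ ϑ' := min_le_left _ _
  have hϑ2 : ϑ ≤ c / 2 := min_le_right _ _
  refine ⟨ϑ, hϑ0, by linarith, fun θ1 hθ1 => ?_⟩
  obtain ⟨Xa, hXa1, h2⟩ := h1 θ1 hθ1
  have ev : ∀ᶠ X : ℝ in Filter.atTop, 16 ≤ X ∧ 2 ≤ X ^ (c / 2) ∧ 4 ≤ X ^ (1 / 32 : ℝ) := by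
    refine (Filter.eventually_ge_atTop 16).and (Filter.Eventually.and ?_ ?_)
    · exact (tendsto_rpow_atTop (by positivity)).eventually_ge_atTop _
    · exact (tendsto_rpow_atTop (by norm_num)).eventually_ge_atTop _
  obtain ⟨Xb, hXb⟩ := Filter.eventually_atTop.1 ev
  refine ⟨max 2 (max Xa Xb), le_max_left _ _, fun X hX S hS δ hδ v M g1 g2 g3 g4 w hw r hr hrX Bs => ?_⟩
  have hXa : Xa ≤ X := le_trans (le_trans (le_max_left _ _) (le_max_right _ _)) hX
  obtain ⟨x1, x2, x3⟩ := hXb X (le_trans (le_trans (le_max_right _ _) (le_max_right _ _)) hX)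
  have hX0 : 0 < X := by linarith
  have hX1 : 1 ≤ X := by linarith
  have hlogX : 0 < Real.log X := Real.log_pos (by linarith)
  have hH0 : (0 : ℝ) < H := by exact_mod_cast (by omega : 0 < H)
  have hr1 : 1 ≤ r := by omega
  have hr0 : (0 : ℝ) < r := by exact_mod_cast hr1
  have hr2 : (r : ℝ) ≤ X ^ (c / 2) := hrX.trans (Real.rpow_le_rpow_of_exponent_le hX1 hϑ2)
  set κ : ℝ := 640 / (r * Real.log X) with hκ
  have hκ0 : 0 < κ := by positivity
  -- the size of `M / r`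
  have hexpv : Real.exp ((v : ℝ) / H) ≤ X ^ (1 / 64 : ℝ) := by
    rw [Real.rpow_def_of_pos hX0]
    apply Real.exp_le_exp.2
    have h3 : ϑ * Real.log X ≤ 1 / 64 * Real.log X := mul_le_mul_of_nonneg_right (by linarith) hlogX.le
    have h4 : (v : ℝ) / H ≤ ((v : ℝ) + 1) / H := div_le_div_of_nonneg_right (by linarith) hH0.le
    linarith
  have hr64 : (r : ℝ) ≤ X ^ (1 / 64 : ℝ) := hr2.trans (Real.rpow_le_rpow_of_exponent_le hX1 (by linarith))
  set Z : ℝ := 2 * M / r with hZ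
  have hZb : X ^ (15 / 16 : ℝ) ≤ Z := by
    rw [hZ, le_div_iff₀ hr0]
    have h3 : X ≤ 4 * M * X ^ (1 / 64 : ℝ) := by
      calc X ≤ 4 * (M * Real.exp ((v : ℝ) / H)) := g3
        _ ≤ 4 * (M * X ^ (1 / 64 : ℝ)) := by
            apply mul_le_mul_of_nonneg_left _ (by norm_num)
            exact mul_le_mul_of_nonneg_left hexpv (Nat.cast_nonneg _)
        _ = _ := by ring
    have h4 : X ^ (15 / 16 : ℝ) * X ^ (1 / 64 : ℝ) * X ^ (1 / 64 : ℝ) * X ^ (1 / 32 : ℝ) = X := by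
      rw [← Real.rpow_add hX0, ← Real.rpow_add hX0, ← Real.rpow_add hX0]
      norm_num
    have h5 : 0 < X ^ (1 / 64 : ℝ) := by positivity
    have h6 : X ^ (15 / 16 : ℝ) * X ^ (1 / 64 : ℝ) * X ^ (1 / 32 : ℝ) ≤ 4 * M := by
      have h7 : (X ^ (15 / 16 : ℝ) * X ^ (1 / 64 : ℝ) * X ^ (1 / 32 : ℝ)) * X ^ (1 / 64 : ℝ) ≤ 4 * M * X ^ (1 / 64 : ℝ) := by
        calc _ = X ^ (15 / 16 : ℝ) * X ^ (1 / 64 : ℝ) * X ^ (1 / 64 : ℝ) * X ^ (1 / 32 : ℝ) := by ring
          _ = X := h4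
          _ ≤ _ := h3
      exact le_of_mul_le_mul_right h7 h5
    have h8 : X ^ (15 / 16 : ℝ) * r ≤ X ^ (15 / 16 : ℝ) * X ^ (1 / 64 : ℝ) :=
      mul_le_mul_of_nonneg_left hr64 (by positivity)
    have h9 : X ^ (15 / 16 : ℝ) * X ^ (1 / 64 : ℝ) * 4 ≤ X ^ (15 / 16 : ℝ) * X ^ (1 / 64 : ℝ) * X ^ (1 / 32 : ℝ) :=
      mul_le_mul_of_nonneg_left x3 (by positivity)
    linarith
  have hZ2 : 2 ≤ Z := by
    refine le_trans ?_ hZb
    refine le_trans (by linarith : (2 : ℝ) ≤ X ^ (1 / 32 : ℝ)) ?_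
    exact Real.rpow_le_rpow_of_exponent_le hX1 (by norm_num)
  have hlogZ : Real.log X / 2 ≤ Real.log Z := by
    have h3 : Real.log (X ^ (15 / 16 : ℝ)) ≤ Real.log Z := Real.log_le_log (by positivity) hZb
    rw [Real.log_rpow hX0] at h3
    linarith
  have hZk : X ^ (1 / 4 : ℝ) ≤ Z ^ (1 / 2 : ℝ) := by
    calc X ^ (1 / 4 : ℝ) ≤ X ^ (15 / 32 : ℝ) := Real.rpow_le_rpow_of_exponent_le hX1 (by norm_num)
      _ = (X ^ (15 / 16 : ℝ)) ^ (1 / 2 : ℝ) := by rw [← Real.rpow_mul hX0.le]; norm_num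
      _ ≤ Z ^ (1 / 2 : ℝ) := Real.rpow_le_rpow (by positivity) hZb (by norm_num)
  have hBB : ∀ m ∈ BB Bs r M, ∃ q : ℕ, q.Prime ∧ m = r * q ∧ (q : ℝ) ≤ Z := by
    intro m hm
    unfold BB at hm
    rw [mem_filter, mem_Ico] at hm
    obtain ⟨⟨_, h3⟩, q, h4, _, h5⟩ := hm
    refine ⟨q, h4, h5, ?_⟩
    rw [hZ, le_div_iff₀ hr0]
    rw [h5] at h3
    have : ((r * q : ℕ) : ℝ) < ((2 * M : ℕ) : ℝ) := by exact_mod_cast h3
    push_cast at this
    linarith
  have hcls : ∀ k : ℕ, 1 ≤ k → (2 : ℝ) ^ k ≤ X ^ (1 / 4 : ℝ) → ∀ P : ℤ → Prop,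
      (∀ x m : ℤ, P (x + m * 2 ^ k) ↔ P x) →
      (#{m ∈ BB Bs r M | P ((m : ℕ) : ℤ)} : ℝ) ≤ κ * (M / 2 ^ k) * #{a ∈ range (2 ^ k) | P ((a : ℕ) : ℤ)} := by
    intro k hk1 hk P hP
    have h3 := primes_cls hZ2 hk1 (hk.trans hZk) hr P hP (BB Bs r M) hBB
    refine h3.trans ?_
    apply mul_le_mul_of_nonneg_right _ (Nat.cast_nonneg _)
    have h4 : Z / Real.log Z ≤ (2 * M / r) / (Real.log X / 2) := by
      rw [hZ] at hlogZ ⊢
      exact div_le_div_of_nonneg_left (by positivity) (by positivity) hlogZ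
    have h2k : (0 : ℝ) < 2 ^ k := by positivity
    calc 160 * (Z / Real.log Z) / 2 ^ k ≤ 160 * ((2 * M / r) / (Real.log X / 2)) / 2 ^ k := by
          apply div_le_div_of_nonneg_right _ h2k.le
          exact mul_le_mul_of_nonneg_left h4 (by norm_num)
      _ = κ * (M / 2 ^ k) := by rw [hκ]; field_simp; ring
  constructor
  · -- the number
    obtain ⟨k, hk1, hk2⟩ : ∃ k : ℕ, 1 ≤ k ∧ (2 : ℝ) ^ k ≤ X ^ (1 / 4 : ℝ) := by
      refine ⟨1, le_rfl, ?_⟩
      rw [pow_one]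
      refine le_trans (by linarith : (2 : ℝ) ≤ X ^ (1 / 32 : ℝ)) ?_
      exact Real.rpow_le_rpow_of_exponent_le hX1 (by norm_num)
    have hall : ∀ P : ℤ → Prop, (∀ x, P x) → (#(BB Bs r M) : ℝ) ≤ κ * M := by
      intro P hPt
      have h3 := hcls k hk1 hk2 P (fun x m => ⟨fun _ => hPt _, fun _ => hPt _⟩)
      rw [filter_true_of_mem (fun _ _ => hPt _), filter_true_of_mem (fun _ _ => hPt _), card_range] at h3
      refine h3.trans (le_of_eq ?_)
      push_cast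
      have h2k : (0 : ℝ) < 2 ^ k := by positivity
      field_simp
    exact hall (fun _ => True) (fun _ => trivial)
  · have h3 := h2 X hXa S hS δ hδ v M g1 (g2.trans (mul_le_mul_of_nonneg_right hϑ1 hlogX.le)) g3 g4 w hw
      (BB Bs r M) κ (filter_subset _ _) hκ0.le (fun a L hL => ?_) hcls
    · exact h3
    · have h4 := primes_short (X := X) (c := c) (by linarith) hc0 hr1 hr2 x2 hL (a := a)
        (({m ∈ BB Bs r M | a ≤ m ∧ m < a + L} : Finset ℕ).image (fun m => m / r)) (by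
          intro q hq
          rw [mem_image] at hq
          obtain ⟨m, hm, rfl⟩ := hq
          rw [mem_filter] at hm
          obtain ⟨q, e1, e2, _⟩ := hBB m hm.1
          have e : m / r = q := by rw [e2, Nat.mul_div_cancel_left _ (by omega : 0 < r)]
          rw [e, ← e2]
          exact ⟨e1, hm.2.1, hm.2.2⟩)
      rw [card_image_of_injOn] at h4
      · refine h4.trans (le_of_eq ?_)
        rw [hκ]
        field_simp
        try ring
      · intro m hm m' hm' h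
        rw [mem_coe, mem_filter] at hm hm'
        obtain ⟨q, _, e2, _⟩ := hBB m hm.1
        obtain ⟨q', _, e2', _⟩ := hBB m' hm'.1
        simp only at h
        rw [e2, e2', Nat.mul_div_cancel_left _ (by omega : 0 < r), Nat.mul_div_cancel_left _ (by omega : 0 < r)] at h
        rw [e2, e2', h]

end Pool.Agent.TH926.BL
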