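import Pool.Agent.TH926.BL.Cell2

/-! All products `p r q ≤ Z` with `p` in a range. -/

set_option autoImplicit false

namespace Pool.Agent.TH926.BL

open Finset Pool.Agent.H320R2.PD Pool.Agent.H499R2.ND Pool.Agent.H499R2.CO Pool.Agent.H376R2.MR
  Pool.Agent.W41.FU Pool.Agent.W41 Pool.Agent.W41.MU
open scoped Classical

/-- the primes with logarithm in `[a, b]` -/
noncomputable def RG (a b : ℝ) : Finset ℕ :=
  (range (⌊Real.exp b⌋₊ + 1)).filter (fun p => p.Prime ∧ a ≤ Real.log p ∧ Real.log p ≤ b)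

theorem mem_RG {a b : ℝ} {p : ℕ} : p ∈ RG a b ↔ p.Prime ∧ a ≤ Real.log p ∧ Real.log p ≤ b := by
  unfold RG
  rw [mem_filter, mem_range, Nat.lt_succ_iff]
  constructor
  · rintro ⟨_, h⟩; exact h
  · rintro ⟨h1, h2, h3⟩
    have hp : (0 : ℝ) < p := by exact_mod_cast h1.pos
    refine ⟨?_, h1, h2, h3⟩
    apply Nat.le_floor
    rw [← Real.exp_log hp]
    exact Real.exp_le_exp.2 h3

theorem mem_cell {H v p : ℕ} :
    p ∈ cell H v ↔ p.Prime ∧ (v : ℝ) / H ≤ Real.log p ∧ Real.log p < ((v : ℝ) + 1) / H := by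
  unfold cell
  rw [mem_filter, mem_range, Nat.lt_succ_iff]
  constructor
  · rintro ⟨_, h⟩; exact h
  · rintro ⟨h1, h2, h3⟩
    have hp : (0 : ℝ) < p := by exact_mod_cast h1.pos
    refine ⟨?_, h1, h2, h3⟩
    apply Nat.le_floor
    rw [← Real.exp_log hp]
    exact Real.exp_le_exp.2 h3.le

/-- the index of the cell of a prime -/
noncomputable def ix (H p : ℕ) : ℕ := ⌊(H : ℝ) * Real.log p⌋₊

theorem mem_cell_ix {H v p : ℕ} (hH : 1 ≤ H) : p ∈ cell H v ↔ p.Prime ∧ ix H p = v := by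
  have hH0 : (0 : ℝ) < H := by exact_mod_cast hH
  rw [mem_cell]
  have e : ((v : ℝ) / H ≤ Real.log p ∧ Real.log p < ((v : ℝ) + 1) / H) ↔ ix H p = v := by
    unfold ix
    rw [Nat.floor_eq_iff (mul_nonneg hH0.le (Real.log_natCast_nonneg p)), div_le_iff₀ hH0,
      lt_div_iff₀ hH0, mul_comm (Real.log p)]
  rw [e]

theorem sum_cells {H v0 v1 : ℕ} (hH : 1 ≤ H) {E : Finset ℕ}
    (hE : ∀ p ∈ E, p.Prime ∧ v0 ≤ ix H p ∧ ix H p < v1) (E' : Set ℕ) (hE' : ∀ p, p ∈ E' ↔ p ∈ E)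
    (g : ℕ → ℝ) :
    ∑ p ∈ E, g p = ∑ v ∈ Ico v0 v1, ∑ p ∈ (cell H v).filter (fun p => p ∈ E'), g p := by
  rw [← sum_fiberwise_of_maps_to (g := ix H) (t := Ico v0 v1) (fun p hp => mem_Ico.2 (hE p hp).2)]
  apply sum_congr rfl
  intro v _
  apply sum_congr _ (fun _ _ => rfl)
  ext p
  rw [mem_filter, mem_filter, mem_cell_ix hH, hE']
  constructor
  · rintro ⟨h1, h2⟩; exact ⟨⟨(hE p h1).1, h2⟩, h1⟩
  · rintro ⟨⟨_, h2⟩, h1⟩; exact ⟨h1, h2⟩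

theorem mm_range {H : ℕ} (hH : 1 ≤ H) : ∃ L0 : ℝ, 1 ≤ L0 ∧ ∀ a b : ℝ, L0 ≤ a → a + 3 / H ≤ b →
    0 < ∑ p ∈ RG a b, 1 / (p : ℝ) ∧
    ∑ v ∈ Ico ⌊(H : ℝ) * a⌋₊ (⌊(H : ℝ) * b⌋₊ + 1), mm H v ≤ 17 * ∑ p ∈ RG a b, 1 / (p : ℝ) := by
  have hH0 : (0 : ℝ) < H := by exact_mod_cast hH
  obtain ⟨w0, hw0, hw⟩ := mm_lower hH
  refine ⟨max 1 ((w0 + 1) / H), le_max_left _ _, fun a b ha hab => ?_⟩
  have ha1 : 1 ≤ a := (le_max_left _ _).trans ha
  have haw : ((w0 : ℝ) + 1) / H ≤ a := (le_max_right _ _).trans ha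
  rw [div_le_iff₀ hH0, mul_comm] at haw
  set v0 := ⌊(H : ℝ) * a⌋₊ with hv0
  set v2 := ⌊(H : ℝ) * b⌋₊ with hv2
  have hHa : 0 ≤ (H : ℝ) * a := by positivity
  have g1 : w0 + 1 ≤ v0 := by
    apply Nat.le_floor
    push_cast
    exact haw
  have g2 : v0 + 3 ≤ v2 := by
    apply Nat.le_floor
    push_cast
    have h1 : (v0 : ℝ) ≤ H * a := Nat.floor_le hHa
    have h2 : (H : ℝ) * (a + 3 / H) ≤ H * b := mul_le_mul_of_nonneg_left hab hH0.le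
    have h3 : (H : ℝ) * (a + 3 / H) = H * a + 3 := by field_simp
    linarith
  have e1 : ∑ v ∈ Ico v0 (v2 + 1), mm H v = mm H v0 + ∑ v ∈ Ico (v0 + 1) v2, mm H v + mm H v2 := by
    rw [sum_Ico_succ_top (by omega), sum_eq_sum_Ico_succ_bot (by omega)]
  set E : Finset ℕ := (RG a b).filter (fun p => v0 + 1 ≤ ix H p ∧ ix H p < v2) with hE
  have e2 : ∑ v ∈ Ico (v0 + 1) v2, mm H v = ∑ p ∈ E, 1 / (p : ℝ) := by
    obtain ⟨E', hE'⟩ : ∃ E' : Set ℕ, ∀ p, p ∈ E' ↔ p ∈ E := ⟨E, fun _ => mem_coe⟩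
    rw [sum_cells (E := E) hH (v0 := v0 + 1) (v1 := v2) (fun p hp => ?_) E' hE']
    · apply sum_congr rfl
      intro v hv
      rw [mem_Ico] at hv
      unfold mm
      apply sum_congr _ (fun _ _ => rfl)
      ext p
      rw [mem_filter, hE', hE, mem_filter, mem_RG]
      constructor
      · intro hp
        have h1 := mem_cell.1 hp
        have h2 := ((mem_cell_ix hH).1 hp).2
        refine ⟨hp, ⟨h1.1, ?_, ?_⟩, by omega, by omega⟩
        · have h3 : (H : ℝ) * a < v0 + 1 := Nat.lt_floor_add_one _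
          have h4 : ((v0 : ℝ) + 1) ≤ v := by exact_mod_cast hv.1
          have h5 : a ≤ (v : ℝ) / H := by
            rw [le_div_iff₀ hH0]; linarith
          exact h5.trans h1.2.1
        · have h3 : (v2 : ℝ) ≤ H * b := by
            have h30 : 0 < 3 / (H : ℝ) := by positivity
            exact Nat.floor_le (mul_nonneg hH0.le (by linarith))
          have h4 : ((v : ℝ) + 1) ≤ v2 := by exact_mod_cast hv.2
          have h5 : ((v : ℝ) + 1) / H ≤ b := by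
            rw [div_le_iff₀ hH0]; linarith
          exact h1.2.2.le.trans h5
      · rintro ⟨hp, _⟩; exact hp
    · rw [hE, mem_filter, mem_RG] at hp
      exact ⟨hp.1.1, hp.2⟩
  have h1 : mm H (v0 + 1) ≤ ∑ v ∈ Ico (v0 + 1) v2, mm H v :=
    single_le_sum (f := fun v => mm H v) (fun v _ => mm_nonneg H v) (mem_Ico.2 ⟨le_rfl, by omega⟩)
  have h2 := hw v0 (by omega)
  have h3 := hw v2 (by omega)
  have h4 := hw (v0 + 1) (by omega)
  have h5 : ∑ p ∈ E, 1 / (p : ℝ) ≤ ∑ p ∈ RG a b, 1 / (p : ℝ) :=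
    sum_le_sum_of_subset_of_nonneg (filter_subset _ _) fun _ _ _ => by positivity
  have hv00 : (0 : ℝ) < v0 := by exact_mod_cast (by omega : 0 < v0)
  have hv01 : (1 : ℝ) ≤ v0 := by exact_mod_cast (by omega : 1 ≤ v0)
  have hv20 : (v0 : ℝ) ≤ v2 := by exact_mod_cast (by omega : v0 ≤ v2)
  have k1 : mm H v0 ≤ 2 / v0 := by rw [le_div_iff₀ hv00, mul_comm]; exact h2.2
  have k2 : mm H v2 ≤ 2 / v0 := by
    rw [le_div_iff₀ hv00, mul_comm]
    exact (mul_le_mul_of_nonneg_right hv20 (mm_nonneg H v2)).trans h3.2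
  have k3 : 1 / (4 * (v0 : ℝ)) ≤ mm H (v0 + 1) := by
    rw [div_le_iff₀ (by positivity)]
    have h6 := h4.1
    push_cast at h6
    have := mm_nonneg H (v0 + 1)
    nlinarith
  have k4 : 2 / (v0 : ℝ) + 2 / v0 = 16 * (1 / (4 * v0)) := by field_simp; norm_num
  have k5 : 0 < 1 / (4 * (v0 : ℝ)) := by positivity
  rw [e1]
  rw [e2] at h1 ⊢
  constructor <;> linarith

theorem QQ_card (n : ℕ) : #(QQ Set.univ n) = Nat.primeCounting n := by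
  have e : QQ Set.univ n = (range (n + 1)).filter Nat.Prime := by
    ext q
    rw [mem_QQ, mem_filter, mem_range]
    constructor
    · rintro ⟨h1, h2, _⟩; exact ⟨by omega, h2⟩
    · rintro ⟨h1, h2⟩; exact ⟨by omega, h2, Set.mem_univ _⟩
  rw [e]
  unfold Nat.primeCounting Nat.primeCounting'
  rw [Nat.count_eq_card_filter_range]

theorem sum_P {s : ℤ} (hs : s = 1 ∨ s = -1) {ε : ℝ} (hε : 0 < ε) (hε1 : ε ≤ 1) :
    ∃ ϑ : ℝ, 0 < ϑ ∧ ϑ ≤ 1 / 64 ∧ ∀ θ1 : ℝ, 0 < θ1 → ∀ η : ℝ, 0 < η → ∃ Z0 : ℝ, 2 ≤ Z0 ∧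
    ∀ Z : ℝ, Z0 ≤ Z → ∀ S : Set ℤ, Inv 1 S → ∀ δ : ℝ, HD s S δ →
    ∀ a b : ℝ, θ1 * Real.log Z ≤ a → a + η * Real.log Z ≤ b → b ≤ ϑ * Real.log Z →
    ∀ r : ℕ, r % 2 = 1 → (r : ℝ) ≤ Z ^ ϑ → ∀ As Bs : Set ℕ,
    0 < ∑ p ∈ RG a b, (#(QQ Set.univ ⌊Z / (p * r)⌋₊) : ℝ) ∧
    |∑ p ∈ (RG a b).filter (fun p => p ∈ As), ∑ q ∈ QQ Bs ⌊Z / (p * r)⌋₊,
      bal s S δ ((p * (r * q) : ℕ) : ℤ)| ≤ ε * ∑ p ∈ RG a b, (#(QQ Set.univ ⌊Z / (p * r)⌋₊) : ℝ) := by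
  obtain ⟨c, hc0, hc⟩ := Pool.Agent.W38.PR.cheb
  set c' : ℝ := min c 1 with hc'
  have hc'0 : 0 < c' := lt_min hc0 one_pos
  have hc'1 : c' ≤ 1 := min_le_right _ _
  have hc'c : c' ≤ c := min_le_left _ _
  set ε' : ℝ := c' * ε / 17 with hε'
  have hε'0 : 0 < ε' := by positivity
  have hε'1 : ε' ≤ 1 := by
    rw [hε', div_le_one (by norm_num)]
    nlinarith
  obtain ⟨H, hH, ϑ0, h0, h01, hcell⟩ := cell_P hs hε'0 hε'1
  have hH1 : 1 ≤ H := by omega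
  have hH0 : (0 : ℝ) < H := by exact_mod_cast hH1
  obtain ⟨L0, hL0, hmm⟩ := mm_range hH1
  refine ⟨ϑ0 / 2, by positivity, by linarith, fun θ1 hθ1 η hη => ?_⟩
  obtain ⟨Z1, hZ12, hZ1⟩ := hcell (θ1 / 2) (by positivity)
  have tl := Real.tendsto_log_atTop
  have ev : ∀ᶠ Z : ℝ in Filter.atTop, (Z1 ≤ Z ∧ 4 ≤ Z) ∧ (L0 ≤ θ1 * Real.log Z ∧ 3 / (H : ℝ) ≤ η * Real.log Z) ∧
      2 / (H : ℝ) ≤ θ1 * Real.log Z :=
    ((Filter.eventually_ge_atTop _).and (Filter.eventually_ge_atTop _)).and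
      ((((tl.const_mul_atTop hθ1).eventually_ge_atTop _).and
        ((tl.const_mul_atTop hη).eventually_ge_atTop _)).and
        ((tl.const_mul_atTop hθ1).eventually_ge_atTop _))
  obtain ⟨Z0, hZ0⟩ := Filter.eventually_atTop.1 ev
  refine ⟨max 2 Z0, le_max_left _ _, fun Z hZ S hS δ hδ a b ha hab hb r hr hrZ As Bs => ?_⟩
  obtain ⟨⟨z1, z2⟩, ⟨z3, z4⟩, z5⟩ := hZ0 Z (le_trans (le_max_right _ _) hZ)
  have hZp : 0 < Z := by linarith
  have hZ1' : 1 ≤ Z := by linarith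
  have hlog : 0 < Real.log Z := Real.log_pos (by linarith)
  have hr1 : 1 ≤ r := by omega
  have hr0 : (0 : ℝ) < r := by exact_mod_cast hr1
  have hL0a : L0 ≤ a := z3.trans ha
  have ha1 : 1 ≤ a := hL0.trans hL0a
  have h3 : a + 3 / H ≤ b := by linarith
  obtain ⟨hmm0, hmm1⟩ := hmm a b hL0a h3
  set v0 := ⌊(H : ℝ) * a⌋₊ with hv0
  set v1 := ⌊(H : ℝ) * b⌋₊ + 1 with hv1
  have hb0 : 0 ≤ b := by
    have : 0 < 3 / (H : ℝ) := by positivity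
    linarith
  have h2H : 2 / (H : ℝ) ≤ a := z5.trans ha
  have h2Hb : 2 / (H : ℝ) ≤ b := by
    have : 0 < 3 / (H : ℝ) := by positivity
    linarith
  have hsc := sum_cells hH1 (v0 := v0) (v1 := v1) (E := (RG a b).filter (fun p => p ∈ As))
    (fun p hp => by
      rw [mem_filter, mem_RG] at hp
      refine ⟨hp.1.1, ?_, ?_⟩
      · exact Nat.floor_le_floor (mul_le_mul_of_nonneg_left hp.1.2.1 hH0.le)
      · rw [hv1, Nat.lt_succ_iff]
        exact Nat.floor_le_floor (mul_le_mul_of_nonneg_left hp.1.2.2 hH0.le))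
    {p | p ∈ RG a b ∧ p ∈ As} (fun p => by rw [mem_filter]; rfl)
    (fun p => ∑ q ∈ QQ Bs ⌊Z / (p * r)⌋₊, bal s S δ ((p * (r * q) : ℕ) : ℤ))
  rw [hsc]
  have hrZ' : (r : ℝ) ≤ Z ^ ϑ0 := hrZ.trans (Real.rpow_le_rpow_of_exponent_le hZ1' (by linarith))
  generalize {p | p ∈ RG a b ∧ p ∈ As} = As'
  have hv : ∀ v ∈ Ico v0 v1, |∑ p ∈ (cell H v).filter (fun p => p ∈ As'),
      ∑ q ∈ QQ Bs ⌊Z / (p * r)⌋₊, bal s S δ ((p * (r * q) : ℕ) : ℤ)| ≤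
      ε' * (mm H v * (Z / (r * Real.log Z))) := by
    intro v hv
    rw [mem_Ico] at hv
    refine hZ1 Z z1 S hS δ hδ v ?_ ?_ r hr hrZ' As' Bs
    · have h4 : (H : ℝ) * a < v0 + 1 := Nat.lt_floor_add_one _
      have h5 : (v0 : ℝ) ≤ v := by exact_mod_cast hv.1
      rw [le_div_iff₀ hH0]
      rw [div_le_iff₀ hH0] at h2H
      nlinarith
    · have h4 : ((⌊(H : ℝ) * b⌋₊ : ℕ) : ℝ) ≤ H * b := Nat.floor_le (by positivity)
      have h5 : (v : ℝ) ≤ (⌊(H : ℝ) * b⌋₊ : ℕ) := by exact_mod_cast (by omega : v ≤ ⌊(H : ℝ) * b⌋₊)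
      rw [div_le_iff₀ hH0]
      rw [div_le_iff₀ hH0] at h2Hb
      nlinarith
  have hW : 0 < Z / (r * Real.log Z) := by positivity
  have hlow : ∀ p ∈ RG a b, c' * (1 / (p : ℝ) * (Z / (r * Real.log Z))) ≤
      (#(QQ Set.univ ⌊Z / (p * r)⌋₊) : ℝ) := by
    intro p hp
    rw [mem_RG] at hp
    have hp0 : (0 : ℝ) < p := by exact_mod_cast hp.1.pos
    have hp1 : (1 : ℝ) ≤ p := by exact_mod_cast hp.1.one_lt.le
    have hpZ : (p : ℝ) ≤ Z ^ (1 / 4 : ℝ) := by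
      rw [Real.rpow_def_of_pos hZp, ← Real.log_le_iff_le_exp hp0]
      have : ϑ0 / 2 * Real.log Z ≤ 1 / 4 * Real.log Z := mul_le_mul_of_nonneg_right (by linarith) hlog.le
      linarith [hp.2.2]
    have hrZ'' : (r : ℝ) ≤ Z ^ (1 / 4 : ℝ) :=
      hrZ.trans (Real.rpow_le_rpow_of_exponent_le hZ1' (by linarith))
    have hZh : (2 : ℝ) ≤ Z ^ (1 / 2 : ℝ) := by
      have h1 : (4 : ℝ) ^ (1 / 2 : ℝ) ≤ Z ^ (1 / 2 : ℝ) := Real.rpow_le_rpow (by norm_num) z2 (by norm_num)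
      have h2 : (4 : ℝ) ^ (1 / 2 : ℝ) = 2 := by
        rw [show (4 : ℝ) = 2 ^ (2 : ℝ) by norm_num, ← Real.rpow_mul (by norm_num)]; norm_num
      linarith
    have h2 : 2 ≤ Z / (p * r) := by
      rw [le_div_iff₀ (by positivity)]
      calc 2 * ((p : ℝ) * r) ≤ Z ^ (1 / 2 : ℝ) * (Z ^ (1 / 4 : ℝ) * Z ^ (1 / 4 : ℝ)) :=
            mul_le_mul hZh (mul_le_mul hpZ hrZ'' hr0.le (by positivity)) (by positivity) (by positivity)
        _ = Z := by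
            rw [← Real.rpow_add hZp, ← Real.rpow_add hZp]; norm_num
    have h4 := hc (Z / (p * r)) h2
    rw [QQ_card]
    refine le_trans ?_ h4
    have h5 : 0 < Real.log (Z / (p * r)) := Real.log_pos (by linarith)
    have hr1' : (1 : ℝ) ≤ r := by exact_mod_cast hr1
    have h6 : Real.log (Z / (p * r)) ≤ Real.log Z := by
      apply Real.log_le_log (by positivity)
      apply div_le_self hZp.le
      nlinarith
    calc c' * (1 / (p : ℝ) * (Z / (r * Real.log Z))) = c' * (Z / (p * r) / Real.log Z) := by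
          field_simp
      _ ≤ c * (Z / (p * r) / Real.log (Z / (p * r))) := by
          apply mul_le_mul hc'c _ (by positivity) hc0.le
          exact div_le_div_of_nonneg_left (by positivity) h5 h6
  refine ⟨lt_of_lt_of_le ?_ (sum_le_sum hlow), ?_⟩
  · rw [← mul_sum, ← sum_mul]
    positivity
  refine (abs_sum_le_sum_abs _ _).trans ((sum_le_sum hv).trans ?_)
  rw [← mul_sum, ← sum_mul]
  calc ε' * ((∑ v ∈ Ico v0 v1, mm H v) * (Z / (r * Real.log Z)))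
      ≤ ε' * ((17 * ∑ p ∈ RG a b, 1 / (p : ℝ)) * (Z / (r * Real.log Z))) :=
        mul_le_mul_of_nonneg_left (mul_le_mul_of_nonneg_right hmm1 hW.le) hε'0.le
    _ = ε * ∑ p ∈ RG a b, c' * (1 / (p : ℝ) * (Z / (r * Real.log Z))) := by
        rw [← mul_sum, ← sum_mul, hε']; ring
    _ ≤ ε * ∑ p ∈ RG a b, (#(QQ Set.univ ⌊Z / (p * r)⌋₊) : ℝ) :=
        mul_le_mul_of_nonneg_left (sum_le_sum hlow) hε.le

end Pool.Agent.TH926.BL
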